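import Pool.Agent.Y670.RP.Stm
import Pool.Agent.Y363.RP.Lin2
import Pool.Agent.W333.MH.FL
import Pool.Agent.W933.MH.Sum
import Pool.Agent.W505.MH.Diff
import Pool.Agent.W505.MH.BT
import Pool.Agent.W74.MH.B0
import Pool.Agent.W440.MH.B2
import Pool.Agent.W639.MH.Alg
import Pool.Agent.W215.MH.Eul
import Pool.Agent.W193.MH.Cls
import Pool.Agent.W701.MH.Abs
import Pool.Agent.W803.MH.Tail
import Pool.Agent.H262R3.Lk.SWQ

/-!
# RP-LINX: primes in all classes to squarefree moduli prime to one exceptional prime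
-/

set_option autoImplicit false

open Finset

namespace Pool.Agent.Y363.RP

open Pool.Agent.H262R3.Lk Pool.Agent.W69.MH
open Pool.Agent.H318R2.Cr (Rgh)

theorem Lj_changeLevel {z q Q : ℕ} (hQ : 0 < Q) (hQz : Q ≤ z) (hd : q ∣ Q)
    (χ : DirichletCharacter ℂ q) (σ : ℝ) :
    Lj z (DirichletCharacter.changeLevel hd χ) 0 σ = Lj z χ 0 σ := by
  have hfz : ∀ n, fz z (DirichletCharacter.changeLevel hd χ) n = fz z χ n := by
    intro n
    unfold fz
    split_ifs with h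
    · have hcop : n.Coprime Q := by
        apply Nat.coprime_of_dvd
        intro p hp hpn hpQ
        exact h p hp ((Nat.le_of_dvd hQ hpQ).trans hQz) hpn
      have h2 := χ.changeLevel_eq_cast_of_dvd' hd (a := (n : ℤ))
        (by exact_mod_cast Nat.isCoprime_iff_coprime.2 hcop)
      simpa using h2
    · rfl
  unfold Lj
  simp only [hfz]

theorem Lj_conductor {z q : ℕ} (hq : 0 < q) (hqz : q ≤ z) (χ : DirichletCharacter ℂ q) (σ : ℝ) :
    Lj z χ 0 σ = Lj z χ.primitiveCharacter 0 σ := by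
  have h := Lj_changeLevel hq hqz χ.conductor_dvd_level χ.primitiveCharacter σ
  rw [χ.changeLevel_primitiveCharacter] at h
  exact h

/-- a squarefree number greater than two has an odd prime factor -/
theorem odd_factor {f : ℕ} (hf : Squarefree f) (h2 : 2 < f) :
    ∃ r : ℕ, r.Prime ∧ 2 < r ∧ r ∣ f := by
  rcases Nat.even_or_odd f with he | ho
  · obtain ⟨m, hm⟩ := he.two_dvd
    have hm1 : m ≠ 1 := by omega
    refine ⟨m.minFac, Nat.minFac_prime hm1, ?_, (Nat.minFac_dvd m).trans ⟨2, by rw [hm]; ring⟩⟩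
    have h3 := (Nat.minFac_prime hm1).two_le
    rcases h3.lt_or_eq with h4 | h4
    · exact h4
    · exfalso
      have h5 : 2 ∣ m := by
        rw [h4]
        exact Nat.minFac_dvd m
      have h6 : 2 * 2 ∣ f := by
        rw [hm]
        exact Nat.mul_dvd_mul_left 2 h5
      have h7 := hf 2 h6
      norm_num [Nat.isUnit_iff] at h7
  · have hf1 : f ≠ 1 := by omega
    refine ⟨f.minFac, Nat.minFac_prime hf1, ?_, Nat.minFac_dvd f⟩
    have h3 := (Nat.minFac_prime hf1).two_le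
    rcases h3.lt_or_eq with h4 | h4
    · exact h4
    · exfalso
      have h5 : 2 ∣ f := by
        rw [h4]
        exact Nat.minFac_dvd f
      exact (Nat.not_even_iff_odd.2 ho) (even_iff_two_dvd.2 h5)

/-- the final step: from the lower bound for the smooth sum to primes -/
theorem fin_step {c L φ S K : ℝ} (hL : 0 < L) (hφ : 0 < φ) (hK : 0 < K)
    (h : c * L ^ 3 / φ ≤ c / 2 * L ^ 3 / φ + K ^ 3 * L ^ 3 * S) :
    c / (2 * K ^ 3) / φ ≤ S := by
  have hL3 : 0 < L ^ 3 := by positivity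
  have h6 : (c / 2 / φ) * L ^ 3 ≤ (K ^ 3 * S) * L ^ 3 := by
    have e1 : c * L ^ 3 / φ = 2 * ((c / 2 / φ) * L ^ 3) := by
      field_simp
    have e2 : c / 2 * L ^ 3 / φ = (c / 2 / φ) * L ^ 3 := by
      field_simp
    rw [e1, e2] at h
    nlinarith
  have h7 : c / 2 / φ ≤ K ^ 3 * S := le_of_mul_le_mul_right h6 hL3
  have hK3 : 0 < K ^ 3 := by positivity
  have e3 : c / (2 * K ^ 3) / φ = (c / 2 / φ) / K ^ 3 := by
    field_simp
  rw [e3, div_le_iff₀ hK3]
  linarith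

theorem linx' (hDIFF : St_DIFF) (hA0 : St_A0) (hB0 : St_B0) (hB2 : St_B2)
    (hALG : St_ALG) (hEUL : St_EUL) (hCLS : St_CLS) (hABS : St_ABS) (hTAIL : St_TAIL)
    (hSWQ : St_SWQ) : Pool.Agent.Y670.RP.S_LINX := by
  obtain ⟨A, c, lam, hA, hc, hlam, hlam2, hlin⟩ :=
    lin2 hDIFF hA0 hB0 hB2 hALG hEUL hCLS hABS
  obtain ⟨K, z2, hK, h2⟩ := hTAIL A (c / 2) hA (by positivity)
  obtain ⟨z3, h3⟩ := hSWQ 1
  have hK0 : (0 : ℝ) < (K : ℝ) := by exact_mod_cast hK
  refine ⟨K, c / (2 * (K : ℝ) ^ 3), hK, by positivity, max (max z2 z3) 32, ?_⟩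
  intro z hz
  have hz2 : z2 ≤ z := le_trans (le_trans (le_max_left _ _) (le_max_left _ _)) hz
  have hz3 : z3 ≤ z := le_trans (le_trans (le_max_right _ _) (le_max_left _ _)) hz
  have hz4 : 32 ≤ z := le_trans (le_max_right _ _) hz
  have hlog : (2 : ℝ) ≤ Real.log z := by
    rw [Real.le_log_iff_exp_le (by exact_mod_cast (by omega : 0 < z))]
    have h5 : Real.exp 1 < 2.7182818286 := Real.exp_one_lt_d9
    have h6 : (32 : ℝ) ≤ (z : ℝ) := by exact_mod_cast hz4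
    have h7 : Real.exp 2 = Real.exp 1 * Real.exp 1 := by
      rw [← Real.exp_add]
      norm_num
    have h8 : 0 < Real.exp 1 := Real.exp_pos 1
    rw [h7]
    nlinarith
  set s : ℝ := 1 / (A * Real.log z) with hs
  have hs0 : 0 < s := by
    rw [hs]
    positivity
  have hs1 : s ≤ 1 := by
    rw [hs, div_le_one (by positivity)]
    nlinarith
  -- the conclusion if no real character is bad
  have hgood : ∀ q b : ℕ, Squarefree q → q ^ 16 ≤ z → b.Coprime q →
      (∀ χ : DirichletCharacter ℂ q, χ ≠ 1 → χ ^ 2 = 1 → lam ≤ ‖Lj z χ 0 s‖) →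
      c / (2 * (K : ℝ) ^ 3) / (q.totient : ℝ) ≤
        ∑ p ∈ (Ioc z (z ^ K)).filter (fun p => p.Prime ∧ p ≡ b [MOD q]), (1 : ℝ) / (p : ℝ) := by
    intro q b hq hqz hb hχ
    have hq1 : 1 ≤ q := Nat.pos_of_ne_zero hq.ne_zero
    have : NeZero q := ⟨by omega⟩
    have hq8 : q ^ 8 ≤ z := (Nat.pow_le_pow_right hq1 (by norm_num)).trans hqz
    have hlow := (hlin z q hz4 hq8).1 b hb hχ
    have hup := h2 z q b hz2 hq1 hq8 hb
    have hphi : (0 : ℝ) < (q.totient : ℝ) := by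
      exact_mod_cast Nat.totient_pos.2 hq1
    exact fin_step (by linarith) hphi hK0 (hlow.trans hup)
  by_cases hbad : ∃ q₀ : ℕ, Squarefree q₀ ∧ q₀ ^ 16 ≤ z ∧ ∃ χ₀ : DirichletCharacter ℂ q₀,
      χ₀ ≠ 1 ∧ χ₀ ^ 2 = 1 ∧ ‖Lj z χ₀ 0 s‖ < lam
  · obtain ⟨q₀, hq₀, hq₀z, χ₀, hχ₀1, hχ₀2, hχ₀l⟩ := hbad
    have hq₀1 : 1 ≤ q₀ := Nat.pos_of_ne_zero hq₀.ne_zero
    have : NeZero q₀ := ⟨by omega⟩
    have hq₀z' : q₀ ≤ z := (Nat.le_self_pow (by norm_num) q₀).trans hq₀z
    have hc1 : χ₀.conductor ≠ 1 := fun h => hχ₀1 (χ₀.eq_one_iff_conductor_eq_one.2 h)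
    have hc0 : χ₀.conductor ≠ 0 := χ₀.conductor_ne_zero
    have hcs : Squarefree χ₀.conductor := hq₀.squarefree_of_dvd χ₀.conductor_dvd_level
    have hc2 : 2 < χ₀.conductor := by
      by_contra hcon
      push Not at hcon
      have hle : (χ₀.conductor : ℝ) ≤ (Real.log z) ^ 1 := by
        rw [pow_one]
        have : (χ₀.conductor : ℝ) ≤ 2 := by exact_mod_cast hcon
        linarith
      have h5 := h3 z hz3 χ₀.conductor (by omega) hle χ₀.primitiveCharacter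
        χ₀.primitiveCharacter_isPrimitive s hs0 hs1
      rw [← Lj_conductor hq₀1 hq₀z'] at h5
      linarith
    obtain ⟨r, hr, hr2, hrf⟩ := odd_factor hcs hc2
    refine ⟨r, Or.inr ⟨hr, hr2⟩, fun q b hq hqz hrq hb => ?_⟩
    have hrq' : ¬ r ∣ q := hrq hr.ne_one
    refine hgood q b hq hqz hb fun χ hχ1 hχ2 => ?_
    by_contra hlt
    push Not at hlt
    have hq1 : 1 ≤ q := Nat.pos_of_ne_zero hq.ne_zero
    have : NeZero q := ⟨by omega⟩
    have hQ0 : 0 < q₀ * q := Nat.mul_pos hq₀1 hq1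
    have : NeZero (q₀ * q) := ⟨by omega⟩
    have hQ8 : (q₀ * q) ^ 8 ≤ z := by
      have h5 : (q₀ * q) ^ 8 * (q₀ * q) ^ 8 ≤ z * z := by
        calc (q₀ * q) ^ 8 * (q₀ * q) ^ 8 = q₀ ^ 16 * q ^ 16 := by ring
          _ ≤ z * z := Nat.mul_le_mul hq₀z hqz
      exact Nat.mul_self_le_mul_self_iff.1 h5
    have hQz : q₀ * q ≤ z := (Nat.le_self_pow (by norm_num) _).trans hQ8
    have hd1 : q ∣ q₀ * q := dvd_mul_left _ _
    have hd2 : q₀ ∣ q₀ * q := dvd_mul_right _ _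
    set χ' := DirichletCharacter.changeLevel hd1 χ with hχ'
    set ψ' := DirichletCharacter.changeLevel hd2 χ₀ with hψ'
    have hχ'2 : χ' ^ 2 = 1 := by rw [hχ', ← map_pow, hχ2, map_one]
    have hψ'2 : ψ' ^ 2 = 1 := by rw [hψ', ← map_pow, hχ₀2, map_one]
    have hψ'1 : ψ' ≠ 1 := by
      intro h
      exact hχ₀1 ((DirichletCharacter.changeLevel_eq_one_iff hd2).1 h)
    have hprod : χ' * ψ' = 1 := by
      by_contra hne
      have h5 := (hlin z (q₀ * q) hz4 hQ8).2 χ' ψ' hχ'2 hψ'2 hψ'1 hne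
        (by rw [← hs, hχ', Lj_changeLevel hQ0 hQz]; exact hlt)
      rw [← hs, hψ', Lj_changeLevel hQ0 hQz] at h5
      linarith
    have heq : χ' = ψ' := by
      have h5 : χ' * ψ' = ψ' * ψ' := by rw [hprod, ← sq, hψ'2]
      exact mul_right_cancel h5
    have hcond : χ.conductor = χ₀.conductor := by
      rw [← DirichletCharacter.conductor_changeLevel χ hd1,
        ← DirichletCharacter.conductor_changeLevel χ₀ hd2, ← hχ', ← hψ', heq]
    apply hrq'
    rw [← hcond] at hrf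
    exact hrf.trans χ.conductor_dvd_level
  · push Not at hbad
    refine ⟨1, Or.inl rfl, fun q b hq hqz _ hb => ?_⟩
    exact hgood q b hq hqz hb fun χ hχ1 hχ2 => hbad q hq hqz χ hχ1 hχ2

theorem linx : Pool.Agent.Y670.RP.S_LINX := by
  have hSUM := Pool.Agent.W933.MHSum.sum_
  have hFL := Pool.Agent.W333.MH.fl
  have hDIFF := Pool.Agent.W505.MH.diff hFL hSUM
  have hA0 := Pool.Agent.W505.MH.a0 hFL hSUM
  have hCLS := Pool.Agent.W193.MH.Cls.cls hSUM
  have hB0 := Pool.Agent.H262R3.Lk.b0 Pool.Agent.W505.MH.bt hSUM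
  have hB2 := Pool.Agent.W440.MH.b2 hSUM
  have hALG := Pool.Agent.H262R3.Lk.alg hSUM
  have hTAIL := Pool.Agent.W803.MH.tail Pool.Agent.W505.MH.bt hSUM
  exact linx' hDIFF hA0 hB0 hB2 hALG Pool.Agent.W215.MH.eul hCLS
    Pool.Agent.W701.MH.abs_ hTAIL Pool.Agent.H262R3.Lk.swq

end Pool.Agent.Y363.RP
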